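import Pool.Agent.X297.EI.Main

/-!
# One measurement which all elastic inclusions with the same shear modulus have in common

Let `d = 2` or `d = 3` and let `Ω` be the unit ball of dimension `d`. For all Lame constants
`(l, m)` outside and `(l', m)` inside of the inclusion, `l' ≠ l` (they satisfy the condition
`(l - l') (m - m') ≥ 0`), the divergence free field `u(x) = (x_1, - x_2)` or `(x_1, - x_2, 0)`
solves the transmission problem with the same nonzero Neumann datum `g = 2 m u` for all balls `D`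
whose closure is contained in `Ω`. So the measurement `(g, u)` does not determine the ball `D`.
-/

open MeasureTheory Metric Set

namespace Pool.Agent.Results.MP_0643f8_an.OneMeasurementAllBalls

open Pool.Agent.X297.EI

/-- There is one measurement, with a nonzero datum, which all balls have in common; so it does not
determine the ball. -/
theorem result (d : ℕ) (hd : d = 2 ∨ d = 3) (l m l' m' : ℝ) (hm : 0 < m) (_hl : 0 < d * l + 2 * m)
    (_hl' : 0 < l') (_hm' : 0 < m') (_hne : (l', m') ≠ (l, m)) (_hsign : 0 ≤ (l - l') * (m - m'))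
    (heq : m' = m) :
    (∃ g u : E d → E d, InL2Psi g ∧
      ¬ (∀ᵐ x : sphere (0 : E d) 1 ∂(volume : Measure (E d)).toSphere, g x = 0) ∧
      ∀ (c : E d) (r : ℝ), 0 < r → closedBall c r ⊆ ball (0 : E d) 1 →
        IsSolution l m l' m' c r g u) ∧
    ∃ (c₁ c₂ : E d) (r₁ r₂ : ℝ) (g u₁ u₂ : E d → E d), 0 < r₁ ∧ 0 < r₂ ∧
      closedBall c₁ r₁ ⊆ ball (0 : E d) 1 ∧ closedBall c₂ r₂ ⊆ ball (0 : E d) 1 ∧
      ball c₁ r₁ ≠ ball c₂ r₂ ∧ InL2Psi g ∧
      ¬ (∀ᵐ x : sphere (0 : E d) 1 ∂(volume : Measure (E d)).toSphere, g x = 0) ∧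
      IsSolution l m l' m' c₁ r₁ g u₁ ∧ IsSolution l m l' m' c₂ r₂ g u₂ ∧
      ∀ x ∈ sphere (0 : E d) 1, u₁ x = u₂ x := by
  subst heq
  have hd2 : 2 ≤ d := by rcases hd with h | h <;> omega
  obtain ⟨g, u, h1, h2, h3⟩ := main hd2 l m' l' hm
  have e1 : closedBall (0 : E d) (1 / 2) ⊆ ball (0 : E d) 1 :=
    closedBall_subset_ball (by norm_num)
  have e2 : closedBall (0 : E d) (1 / 4) ⊆ ball (0 : E d) 1 :=
    closedBall_subset_ball (by norm_num)
  refine ⟨⟨g, u, h1, h2, h3⟩, 0, 0, 1 / 2, 1 / 4, g, u, u, by norm_num, by norm_num, e1, e2, ?_,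
    h1, h2, h3 0 _ (by norm_num) e1, h3 0 _ (by norm_num) e2, fun _ _ => rfl⟩
  intro h
  have h4 : EuclideanSpace.single (⟨0, by omega⟩ : Fin d) (1 / 3 : ℝ) ∈ ball (0 : E d) (1 / 2) := by
    rw [mem_ball_zero_iff]
    simp
    norm_num
  rw [h, mem_ball_zero_iff] at h4
  simp at h4
  norm_num at h4

end Pool.Agent.Results.MP_0643f8_an.OneMeasurementAllBalls
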